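import Mathlib

/-!
# The absolute-value kernel for the conformally invariant Hardy inequality on the dyadic tree

For every positive measure `μ` on the vertices of the dyadic tree, the conformally invariant Hardy
inequality (a') holds if and only if the reproducing kernel Hilbert space with kernel `|k|` embeds
boundedly in `L²(μ ⊗ μ)`.  Proof of (a') ⇒ (b): if `μ` is not concentrated at one vertex then (a')
forces `μ(T) < ∞`; take a centroid `c` of `μ` and apply (a') to the functions
`x ↦ ∑_{[x,c]} a` restricted to the components of `T ∖ {c}`, which have mass at most half of the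
total mass; then `[x,y] ⊆ [x,c] ∪ [c,y]`.
-/

namespace Pool.Agent.Results.MP_efe325_an.AbsKernel

open MeasureTheory
open scoped ENNReal

/-- Vertices of the infinite rooted dyadic tree: finite words; the root `o` is `[]`, the two
children of `v` are `false :: v` and `true :: v`. -/
abbrev T : Type := List Bool

/-- All subsets of `T` are measurable. -/
instance : MeasurableSpace T := ⊤

instance : DiscreteMeasurableSpace T := ⟨fun _ => trivial⟩

/-- The edge from the parent of `v` (from `o^*` if `v = o`) to `v` is represented by its lower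
endpoint `v`; so `E = T`.  `anc x` is the set of edges of the geodesic from `o^*` to `x`. -/
def anc (x : T) : Finset T := x.tails.toFinset

/-- The set `[x, y]` of edges of the geodesic from `x` to `y`. -/
def geo (x y : T) : Finset T := symmDiff (anc x) (anc y)

/-- `x ∧ y`: the last common vertex of the geodesics from `o^*` to `x` and to `y`, that is, the
longest common suffix of the two words. -/
def meet (x y : T) : T := (x.tails.find? (fun v => decide (v ∈ y.tails))).getD []

/-- `d(z) = #[o^*, z]`. -/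
def d (z : T) : ℕ := (anc z).card

/-- The kernel `k_{(a,b)}(x,y) = d(a∧x) + d(b∧y) - d(a∧y) - d(b∧x)`. -/
def k (p q : T × T) : ℝ :=
  (d (meet p.1 q.1) : ℝ) + d (meet p.2 q.2) - d (meet p.1 q.2) - d (meet p.2 q.1)

/-- The parent of `v`, as an element of `T ∪ {o^*}` (`none` is `o^*`). -/
def par : T → Option T
  | [] => none
  | _ :: v => some v

/-- `∇F(α) = F(α⁺) - F(α⁻)` for the edge `α` with lower endpoint `v`. -/
def grad (F : Option T → ℝ) (v : T) : ℝ := F (some v) - F (par v)

/-- Condition (a'). -/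
def CondA (μ : Measure T) : Prop :=
  ∃ C : NNReal, ∀ F : Option T → ℝ,
    ∫⁻ p : T × T, ENNReal.ofReal ((F (some p.1) - F (some p.2)) ^ 2) ∂(μ.prod μ) ≤
      C * ∑' v : T, ENNReal.ofReal (grad F v ^ 2)

/-- Condition (b): for the reproducing kernel Hilbert space `H` of functions on `T × T` with
kernel `|k|`, the inclusion `H → L²(μ ⊗ μ)` is bounded. -/
def CondB (μ : Measure T) : Prop :=
  ∀ (H : Type) [NormedAddCommGroup H] [InnerProductSpace ℝ H] [CompleteSpace H]
    [RKHS ℝ H (T × T) ℝ], (∀ p q : T × T, RKHS.kernel H p q 1 = |k p q|) →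
    ∃ C : NNReal, ∀ G : H,
      ∫⁻ p : T × T, ENNReal.ofReal ((G p) ^ 2) ∂(μ.prod μ) ≤ C * ENNReal.ofReal (‖G‖ ^ 2)

/-! ### Combinatorics of the tree -/

theorem mem_anc {v x : T} : v ∈ anc x ↔ v <:+ x := by
  simp [anc, List.mem_tails]

theorem anc_nil : anc [] = {[]} := by
  ext v; simp [mem_anc]

theorem anc_cons (b : Bool) (w : T) : anc (b :: w) = insert (b :: w) (anc w) := by
  ext v; simp [mem_anc, List.suffix_cons_iff]

theorem not_mem_anc (b : Bool) (w : T) : b :: w ∉ anc w := by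
  rw [mem_anc]
  intro h
  have := h.length_le
  simp at this

theorem nil_mem_anc (x : T) : [] ∈ anc x := by simp [mem_anc]

theorem self_mem_anc (x : T) : x ∈ anc x := by simp [mem_anc]

theorem nil_notMem_geo (x y : T) : [] ∉ geo x y := by
  simp [geo, Finset.mem_symmDiff, nil_mem_anc]

theorem mem_geo {v x y : T} : v ∈ geo x y ↔ (v <:+ x ∧ ¬ v <:+ y) ∨ (v <:+ y ∧ ¬ v <:+ x) := by
  simp [geo, Finset.mem_symmDiff, mem_anc]

theorem anc_meet (x y : T) : anc (meet x y) = anc x ∩ anc y := by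
  induction x with
  | nil =>
    have : meet [] y = [] := by simp [meet]
    rw [this, anc_nil]
    ext v
    simp only [Finset.mem_singleton, Finset.mem_inter, mem_anc]
    constructor
    · rintro rfl; simp
    · rintro ⟨h, -⟩; exact h
  | cons b w ih =>
    by_cases h : (b :: w) <:+ y
    · have : meet (b :: w) y = b :: w := by
        simp [meet, List.tails, List.mem_tails, h]
      rw [this]
      ext v
      simp only [Finset.mem_inter, mem_anc]
      exact ⟨fun hv => ⟨hv, hv.trans h⟩, fun hv => hv.1⟩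
    · have : meet (b :: w) y = meet w y := by
        simp [meet, List.tails, List.mem_tails, h]
      rw [this, ih, anc_cons]
      ext v
      simp only [Finset.mem_inter, Finset.mem_insert, mem_anc]
      constructor
      · rintro ⟨h1, h2⟩; exact ⟨Or.inr h1, h2⟩
      · rintro ⟨h1, h2⟩
        rcases h1 with rfl | h1
        · exact absurd h2 h
        · exact ⟨h1, h2⟩

/-- comparability of ancestors -/
theorem comparable {v w x : T} (hv : v <:+ x) (hw : w <:+ x) : v <:+ w ∨ w <:+ v :=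
  List.suffix_or_suffix_of_suffix hv hw

theorem no_mixed {a x y v w : T} (h1 : v <:+ a) (h2 : w <:+ a) (h3 : v <:+ x) (h4 : ¬ v <:+ y)
    (h5 : w <:+ y) (h6 : ¬ w <:+ x) : False := by
  rcases comparable h1 h2 with h | h
  · exact h4 (h.trans h5)
  · exact h6 (h.trans h3)

/-- the orientation `1_{v ≤ a} - 1_{v ≤ b}` -/
def ori (a b v : T) : ℝ := (if v <:+ a then 1 else 0) - (if v <:+ b then 1 else 0)

theorem ori_eq_zero {a b v : T} (h : v ∉ geo a b) : ori a b v = 0 := by
  rw [mem_geo] at h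
  unfold ori
  by_cases h1 : v <:+ a <;> by_cases h2 : v <:+ b <;> simp_all

/-- The orientations agree or disagree simultaneously. -/
theorem ori_const {a b x y v w : T} (hv1 : v ∈ geo a b) (hv2 : v ∈ geo x y)
    (hw1 : w ∈ geo a b) (hw2 : w ∈ geo x y) :
    ori a b v * ori x y v = ori a b w * ori x y w := by
  rw [mem_geo] at *
  unfold ori
  rcases hv1 with ⟨h1, h2⟩ | ⟨h1, h2⟩ <;> rcases hv2 with ⟨h3, h4⟩ | ⟨h3, h4⟩ <;>
    rcases hw1 with ⟨h5, h6⟩ | ⟨h5, h6⟩ <;> rcases hw2 with ⟨h7, h8⟩ | ⟨h7, h8⟩ <;>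
    first
    | exact (no_mixed h1 h5 h3 h4 h7 h8).elim
    | exact (no_mixed h3 h7 h1 h2 h5 h6).elim
    | simp [h1, h2, h3, h4, h5, h6, h7, h8]

theorem ori_sq {a b x y v : T} (hv1 : v ∈ geo a b) (hv2 : v ∈ geo x y) :
    (ori a b v * ori x y v) ^ 2 = 1 := by
  rw [mem_geo] at *
  unfold ori
  rcases hv1 with ⟨h1, h2⟩ | ⟨h1, h2⟩ <;> rcases hv2 with ⟨h3, h4⟩ | ⟨h3, h4⟩ <;>
    simp [h1, h2, h3, h4]

theorem card_inter (A B U : Finset T) (hA : A ⊆ U) :
    ((A ∩ B).card : ℝ) = ∑ v ∈ U, (if v ∈ A then 1 else 0) * (if v ∈ B then 1 else 0) := by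
  have : ∀ v, ((if v ∈ A then (1 : ℝ) else 0) * (if v ∈ B then 1 else 0)) =
      if v ∈ A ∩ B then 1 else 0 := by
    intro v
    by_cases h1 : v ∈ A <;> by_cases h2 : v ∈ B <;> simp [h1, h2]
  simp only [this]
  rw [Finset.sum_ite_mem, Finset.sum_const, nsmul_eq_mul, mul_one]
  congr 2
  ext v
  simp only [Finset.mem_inter]
  exact ⟨fun h => ⟨hA h.1, h⟩, fun h => h.2⟩

theorem k_eq_sum (p q : T × T) :
    k p q = ∑ v ∈ anc p.1 ∪ anc p.2, ori p.1 p.2 v * ori q.1 q.2 v := by
  unfold k d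
  rw [anc_meet, anc_meet, anc_meet, anc_meet,
    card_inter _ _ (anc p.1 ∪ anc p.2) Finset.subset_union_left,
    card_inter _ _ (anc p.1 ∪ anc p.2) Finset.subset_union_right,
    card_inter _ _ (anc p.1 ∪ anc p.2) Finset.subset_union_left,
    card_inter _ _ (anc p.1 ∪ anc p.2) Finset.subset_union_right,
    ← Finset.sum_add_distrib, ← Finset.sum_sub_distrib, ← Finset.sum_sub_distrib]
  refine Finset.sum_congr rfl fun v _ => ?_
  simp only [mem_anc, ori]
  ring

/-- `|k_{(a,b)}(x,y)|` is the number of common edges of `[a,b]` and `[x,y]`. -/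
theorem abs_k (p q : T × T) : |k p q| = ((geo p.1 p.2 ∩ geo q.1 q.2).card : ℝ) := by
  rw [k_eq_sum]
  have hsub : geo p.1 p.2 ∩ geo q.1 q.2 ⊆ anc p.1 ∪ anc p.2 := by
    intro v hv
    have := (Finset.mem_inter.mp hv).1
    rw [mem_geo] at this
    rw [Finset.mem_union, mem_anc, mem_anc]
    tauto
  rw [← Finset.sum_subset hsub (fun v _ hv => by
    rw [Finset.mem_inter, not_and_or] at hv
    rcases hv with hv | hv
    · rw [ori_eq_zero hv, zero_mul]
    · rw [ori_eq_zero hv, mul_zero])]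
  rcases (geo p.1 p.2 ∩ geo q.1 q.2).eq_empty_or_nonempty with h | ⟨w, hw⟩
  · rw [h]; simp
  · have hw' := Finset.mem_inter.mp hw
    rw [Finset.sum_congr rfl fun v hv =>
      ori_const (Finset.mem_inter.mp hv).1 (Finset.mem_inter.mp hv).2 hw'.1 hw'.2,
      Finset.sum_const, nsmul_eq_mul, abs_mul, Nat.abs_cast]
    have h1 := ori_sq hw'.1 hw'.2
    have h2 : |ori p.1 p.2 w * ori q.1 q.2 w| = 1 := by
      rw [← sq_abs] at h1
      nlinarith [abs_nonneg (ori p.1 p.2 w * ori q.1 q.2 w)]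
    rw [h2, mul_one]

theorem geo_edge (b : Bool) (w : T) : geo w (b :: w) = {b :: w} := by
  ext v
  rw [geo, anc_cons, Finset.mem_symmDiff, Finset.mem_singleton, Finset.mem_insert]
  constructor
  · rintro (⟨h1, h2⟩ | ⟨h1, h2⟩)
    · exact absurd (Or.inr h1) h2
    · exact h1.resolve_right h2
  · rintro rfl
    exact Or.inr ⟨Or.inl rfl, not_mem_anc b w⟩

/-! ### The function `g(x) = ∑_{[x,c]} a` -/

/-- `g(x) = ∑_{[x,c]} a` -/
noncomputable def gf (a : T → ℝ) (c x : T) : ℝ := ∑ v ∈ geo x c, a v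

theorem sum_symmDiff (a : T → ℝ) (A B : Finset T) :
    ∑ v ∈ symmDiff A B, a v = ∑ v ∈ A, a v + ∑ v ∈ B, a v - 2 * ∑ v ∈ A ∩ B, a v := by
  have h1 : ∑ v ∈ symmDiff A B, a v = ∑ v ∈ A \ B, a v + ∑ v ∈ B \ A, a v := by
    rw [symmDiff_def, Finset.sup_eq_union, Finset.sum_union disjoint_sdiff_sdiff]
  have h2 := Finset.sum_inter_add_sum_sdiff A B a
  have h3 := Finset.sum_inter_add_sum_sdiff B A a
  rw [Finset.inter_comm] at h3
  rw [h1]; linarith

theorem gf_self (a : T → ℝ) (c : T) : gf a c c = 0 := by simp [gf, geo]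

theorem gf_nonneg (a : T → ℝ) (ha : ∀ v, 0 ≤ a v) (c x : T) : 0 ≤ gf a c x :=
  Finset.sum_nonneg fun v _ => ha v

theorem gf_step (a : T → ℝ) (ha : ∀ v, 0 ≤ a v) (c : T) (b : Bool) (w : T) :
    |gf a c (b :: w) - gf a c w| ≤ a (b :: w) := by
  unfold gf geo
  rw [sum_symmDiff, sum_symmDiff, anc_cons, Finset.sum_insert (not_mem_anc b w)]
  by_cases h : b :: w ∈ anc c
  · rw [Finset.insert_inter_of_mem h, Finset.sum_insert
      (fun h' => not_mem_anc b w (Finset.mem_inter.mp h').1)]
    rw [abs_le]; constructor <;> linarith [ha (b :: w)]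
  · rw [Finset.insert_inter_of_notMem h]
    rw [abs_le]; constructor <;> linarith [ha (b :: w)]

theorem gf_triangle (a : T → ℝ) (ha : ∀ v, 0 ≤ a v) (c x y : T) :
    ∑ v ∈ geo x y, a v ≤ gf a c x + gf a c y := by
  have hsub : geo x y ⊆ geo x c ∪ geo y c := by
    intro v hv
    rw [Finset.mem_union, mem_geo, mem_geo]
    rw [mem_geo] at hv
    tauto
  calc ∑ v ∈ geo x y, a v ≤ ∑ v ∈ geo x c ∪ geo y c, a v :=
        Finset.sum_le_sum_of_subset_of_nonneg hsub fun v _ _ => ha v
    _ ≤ gf a c x + gf a c y := by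
        unfold gf
        rw [← Finset.sum_union_inter]
        have := Finset.sum_nonneg (s := geo x c ∩ geo y c) fun v _ => ha v
        linarith

/-! ### Measure theory -/

instance sfin (μ : Measure T) : SFinite μ := by
  rw [← Measure.sum_smul_dirac μ]; infer_instance

theorem lint_prod (μ : Measure T) (f : T × T → ℝ≥0∞) :
    ∫⁻ p, f p ∂(μ.prod μ) = ∫⁻ x, ∫⁻ y, f (x, y) ∂μ ∂μ :=
  lintegral_prod f (Measurable.of_discrete).aemeasurable

/-- One component `K` of `T ∖ {c}`. -/
theorem piece (μ : Measure T) (C : NNReal) (hA : ∀ F : Option T → ℝ,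
    ∫⁻ p : T × T, ENNReal.ofReal ((F (some p.1) - F (some p.2)) ^ 2) ∂(μ.prod μ) ≤
      C * ∑' v : T, ENNReal.ofReal (grad F v ^ 2)) (a : T → ℝ) (ha : ∀ v, 0 ≤ a v) (c : T)
    (K : Set T) (hc : c ∉ K)
    (hK : ∀ b w, (b :: w ∈ K ↔ w ∈ K) ∨ b :: w = c ∨ w = c) (hμ : μ K ≤ μ Kᶜ) :
    μ Set.univ * ∫⁻ x, K.indicator (fun x => ENNReal.ofReal (gf a c x ^ 2)) x ∂μ ≤
      C * ∑' v : T, ENNReal.ofReal (a v ^ 2) := by
  classical
  set h : T → ℝ := fun x => if x ∈ K then gf a c x else 0 with hh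
  set F : Option T → ℝ := fun o => match o with
    | none => h []
    | some x => h x with hF
  have hFs : ∀ x, F (some x) = h x := fun x => rfl
  have hgrad : ∀ v, grad F v ^ 2 ≤ a v ^ 2 := by
    intro v
    rw [← sq_abs]
    apply pow_le_pow_left₀ (abs_nonneg _)
    match v with
    | [] => 
      have : grad F [] = 0 := by simp [grad, par, hF]
      rw [this, abs_zero]; exact ha []
    | b :: w =>
      have e : grad F (b :: w) = h (b :: w) - h w := rfl
      rw [e]
      by_cases h1 : b :: w ∈ K <;> by_cases h2 : w ∈ K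
      · simp only [hh, h1, h2, if_true]; exact gf_step a ha c b w
      · have h3 : w = c := by
          rcases hK b w with h3 | h3 | h3
          · exact absurd (h3.mp h1) h2
          · exact absurd (h3 ▸ h1) hc
          · exact h3
        have := gf_step a ha c b w
        simp only [hh, h1, h2, if_true, if_false]
        rw [show gf a c w = 0 by rw [h3]; exact gf_self a c] at this
        exact this
      · have h3 : b :: w = c := by
          rcases hK b w with h3 | h3 | h3
          · exact absurd (h3.mpr h2) h1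
          · exact h3
          · exact absurd (h3 ▸ h2) hc
        have := gf_step a ha c b w
        simp only [hh, h1, h2, if_true, if_false]
        rw [show gf a c (b :: w) = 0 by rw [h3]; exact gf_self a c] at this
        exact this
      · simp only [hh, h1, h2, if_false, sub_zero, abs_zero]; exact ha _
  have h1 := hA F
  have h2 : ∑' v : T, ENNReal.ofReal (grad F v ^ 2) ≤ ∑' v : T, ENNReal.ofReal (a v ^ 2) :=
    ENNReal.tsum_le_tsum fun v => ENNReal.ofReal_le_ofReal (hgrad v)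
  set φ : T → ℝ≥0∞ := K.indicator (fun x => ENNReal.ofReal (gf a c x ^ 2)) with hφ
  set χ : T → ℝ≥0∞ := Kᶜ.indicator (fun _ => 1) with hχ
  have hpt : ∀ x y : T, φ x * χ y + χ x * φ y ≤
      ENNReal.ofReal ((F (some x) - F (some y)) ^ 2) := by
    intro x y
    rw [hFs, hFs]
    by_cases hx : x ∈ K <;> by_cases hy : y ∈ K <;> simp [hφ, hχ, hh, hx, hy]
  have hint : ∫⁻ χ' , χ χ' ∂μ = μ Kᶜ := by
    rw [hχ, lintegral_indicator (MeasurableSet.of_discrete)]
    simp
  have h3 : ∫⁻ p : T × T, (φ p.1 * χ p.2 + χ p.1 * φ p.2) ∂(μ.prod μ) =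
      2 * (μ Kᶜ * ∫⁻ x, φ x ∂μ) := by
    rw [lint_prod]
    have : ∀ x, ∫⁻ y, (φ x * χ y + χ x * φ y) ∂μ = φ x * μ Kᶜ + χ x * ∫⁻ y, φ y ∂μ := by
      intro x
      rw [lintegral_add_left Measurable.of_discrete, lintegral_const_mul _ Measurable.of_discrete,
        lintegral_const_mul _ Measurable.of_discrete, hint]
    simp only [this]
    rw [lintegral_add_left Measurable.of_discrete, lintegral_mul_const _ Measurable.of_discrete,
      lintegral_mul_const _ Measurable.of_discrete, hint]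
    ring
  have h4 : 2 * (μ Kᶜ * ∫⁻ x, φ x ∂μ) ≤ C * ∑' v : T, ENNReal.ofReal (a v ^ 2) := by
    rw [← h3]
    calc _ ≤ ∫⁻ p : T × T, ENNReal.ofReal ((F (some p.1) - F (some p.2)) ^ 2) ∂(μ.prod μ) :=
          lintegral_mono fun p => hpt p.1 p.2
      _ ≤ _ := h1
      _ ≤ _ := by gcongr
  refine le_trans ?_ h4
  have h5 : μ Set.univ ≤ 2 * μ Kᶜ := by
    rw [← Set.union_compl_self K]
    calc μ (K ∪ Kᶜ) ≤ μ K + μ Kᶜ := measure_union_le _ _
      _ ≤ μ Kᶜ + μ Kᶜ := by gcongr
      _ = 2 * μ Kᶜ := by ring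
  calc μ Set.univ * ∫⁻ x, φ x ∂μ ≤ 2 * μ Kᶜ * ∫⁻ x, φ x ∂μ := by gcongr
    _ = 2 * (μ Kᶜ * ∫⁻ x, φ x ∂μ) := by ring

/-- the subtree with top vertex `v` -/
def Sub (v : T) : Set T := {x | v <:+ x}

/-- A centroid. -/
theorem exists_centroid (μ : Measure T) (hfin : μ Set.univ ≠ ∞) (h0 : μ Set.univ ≠ 0) :
    ∃ c : T, μ (Sub c)ᶜ ≤ μ (Sub c) ∧ ∀ b, μ (Sub (b :: c)) ≤ μ (Sub (b :: c))ᶜ := by
  classical
  have hf : IsFiniteMeasure μ := ⟨lt_top_iff_ne_top.mpr hfin⟩
  -- far away there is little mass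
  obtain ⟨N, hN⟩ : ∃ N : ℕ, μ {x : T | N ≤ x.length} < μ Set.univ / 2 := by
    have h1 := tendsto_measure_iInter_atTop (μ := μ) (s := fun N : ℕ => {x : T | N ≤ x.length})
      (fun _ => (MeasurableSet.of_discrete).nullMeasurableSet)
      (fun i j hij x (hx : j ≤ x.length) => le_trans hij hx) ⟨0, measure_ne_top _ _⟩
    have h2 : (⋂ N : ℕ, {x : T | N ≤ x.length}) = ∅ := by
      ext x
      simp only [Set.mem_iInter, Set.mem_ofPred_eq, Set.mem_empty_iff_false, iff_false, not_forall,
        not_le]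
      exact ⟨x.length + 1, Nat.lt_succ_self _⟩
    rw [h2, measure_empty] at h1
    have h3 : 0 < μ Set.univ / 2 := ENNReal.div_pos h0 (by norm_num)
    exact (h1.eventually (gt_mem_nhds h3)).exists
  have hheavy : ∀ v : T, μ (Sub v)ᶜ ≤ μ (Sub v) → v.length < N := by
    intro v hv
    by_contra hlen
    push Not at hlen
    have h1 : μ (Sub v) < μ Set.univ / 2 := by
      refine lt_of_le_of_lt (measure_mono fun x hx => ?_) hN
      exact hlen.trans (List.IsSuffix.length_le hx)
    have h2 : μ Set.univ ≤ μ (Sub v) + μ (Sub v)ᶜ := by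
      rw [← Set.union_compl_self (Sub v)]; exact measure_union_le _ _
    have h3 : μ Set.univ < μ Set.univ := by
      calc μ Set.univ ≤ μ (Sub v) + μ (Sub v) := h2.trans (by gcongr)
        _ < μ Set.univ / 2 + μ Set.univ / 2 := ENNReal.add_lt_add h1 h1
        _ = μ Set.univ := ENNReal.add_halves _
    exact lt_irrefl _ h3
  have hroot : μ (Sub [])ᶜ ≤ μ (Sub []) := by
    have : (Sub [])ᶜ = ∅ := by ext x; simp [Sub]
    rw [this, measure_empty]; exact zero_le
  -- a heavy vertex of maximal length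
  have hex : ∃ n : ℕ, ∃ v : T, μ (Sub v)ᶜ ≤ μ (Sub v) ∧ v.length = n ∧
      ∀ w : T, μ (Sub w)ᶜ ≤ μ (Sub w) → w.length ≤ n := by
    by_contra hcon
    push Not at hcon
    have : ∀ n : ℕ, ∃ v : T, μ (Sub v)ᶜ ≤ μ (Sub v) ∧ n ≤ v.length := by
      intro n
      induction n with
      | zero => exact ⟨[], hroot, le_rfl⟩
      | succ n ih =>
        obtain ⟨v, hv, hvn⟩ := ih
        obtain ⟨w, hw, hwn⟩ := hcon v.length v hv rfl
        exact ⟨w, hw, by omega⟩
    obtain ⟨v, hv, hvN⟩ := this N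
    exact absurd (hheavy v hv) (not_lt.mpr hvN)
  obtain ⟨n, c, hc, hcn, hmax⟩ := hex
  refine ⟨c, hc, fun b => ?_⟩
  by_contra hb
  push Not at hb
  have := hmax (b :: c) hb.le
  simp at this
  omega

/-- If `μ` is concentrated at one point then everything vanishing on the diagonal integrates to
zero. -/
theorem lint_diag (μ : Measure T) (f : T × T → ℝ≥0∞) (hf : ∀ x, f (x, x) = 0)
    (h : ∀ x y : T, μ {x} ≠ 0 → μ {y} ≠ 0 → x = y) : ∫⁻ p, f p ∂(μ.prod μ) = 0 := by
  rw [lint_prod, lintegral_countable']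
  refine ENNReal.tsum_eq_zero.mpr fun x => ?_
  by_cases hx : μ {x} = 0
  · rw [hx, mul_zero]
  · rw [lintegral_countable']
    have : ∑' y, f (x, y) * μ {y} = 0 := by
      refine ENNReal.tsum_eq_zero.mpr fun y => ?_
      by_cases hy : μ {y} = 0
      · rw [hy, mul_zero]
      · rw [← h x y hx hy, hf, zero_mul]
    rw [this, zero_mul]

/-- Two atoms force finite total mass. -/
theorem finite_mass (μ : Measure T) (C : NNReal) (hA : ∀ F : Option T → ℝ,
    ∫⁻ p : T × T, ENNReal.ofReal ((F (some p.1) - F (some p.2)) ^ 2) ∂(μ.prod μ) ≤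
      C * ∑' v : T, ENNReal.ofReal (grad F v ^ 2)) (x y : T) (hx : μ {x} ≠ 0) (hy : μ {y} ≠ 0)
    (hxy : x ≠ y) : μ Set.univ ≠ ∞ := by
  classical
  -- an edge separating `x` and `y`
  have hsep : ∃ v : T, v ≠ [] ∧ ((x ∈ Sub v ∧ y ∉ Sub v) ∨ (y ∈ Sub v ∧ x ∉ Sub v)) := by
    by_cases h : x <:+ y
    · refine ⟨y, ?_, Or.inr ⟨List.suffix_rfl, fun h' => hxy ?_⟩⟩
      · rintro rfl
        exact hxy (List.suffix_nil.mp h)
      · exact (List.IsSuffix.eq_of_length h (le_antisymm h.length_le (List.IsSuffix.length_le h')))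
    · refine ⟨x, ?_, Or.inl ⟨List.suffix_rfl, h⟩⟩
      rintro rfl
      exact h (List.nil_suffix)
  obtain ⟨v, hv0, hv⟩ := hsep
  have hS : μ (Sub v) ≠ 0 ∧ μ (Sub v)ᶜ ≠ 0 := by
    rcases hv with ⟨h1, h2⟩ | ⟨h1, h2⟩
    · exact ⟨fun h => hx (measure_mono_null (Set.singleton_subset_iff.mpr h1) h),
        fun h => hy (measure_mono_null (Set.singleton_subset_iff.mpr h2) h)⟩
    · exact ⟨fun h => hy (measure_mono_null (Set.singleton_subset_iff.mpr h1) h),
        fun h => hx (measure_mono_null (Set.singleton_subset_iff.mpr h2) h)⟩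
  set F : Option T → ℝ := fun o => match o with
    | none => 0
    | some x => if v <:+ x then 1 else 0 with hF
  have hgrad : ∀ w, w ≠ v → grad F w = 0 := by
    intro w hw
    match w with
    | [] =>
      have : ¬ v <:+ ([] : T) := fun h => hv0 (List.suffix_nil.mp h)
      simp [grad, par, hF, this]
    | b :: u =>
      have e : grad F (b :: u) = (if v <:+ (b :: u) then (1 : ℝ) else 0) -
        (if v <:+ u then 1 else 0) := rfl
      rw [e]
      have : v <:+ (b :: u) ↔ v <:+ u := by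
        rw [List.suffix_cons_iff]
        exact ⟨fun h => h.resolve_left fun h' => hw h'.symm, Or.inr⟩
      simp [this]
  have hsum : ∑' w : T, ENNReal.ofReal (grad F w ^ 2) ≠ ∞ := by
    rw [tsum_eq_single v fun w hw => by rw [hgrad w hw]; simp]
    exact ENNReal.ofReal_ne_top
  have h1 := hA F
  have hfin : (C : ℝ≥0∞) * ∑' w : T, ENNReal.ofReal (grad F w ^ 2) ≠ ∞ :=
    ENNReal.mul_ne_top ENNReal.coe_ne_top hsum
  have h2 : μ (Sub v) * μ (Sub v)ᶜ ≤
      ∫⁻ p : T × T, ENNReal.ofReal ((F (some p.1) - F (some p.2)) ^ 2) ∂(μ.prod μ) := by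
    have h3 : μ (Sub v) * μ (Sub v)ᶜ = ∫⁻ p : T × T, (Sub v).indicator 1 p.1 *
        ((Sub v)ᶜ).indicator 1 p.2 ∂(μ.prod μ) := by
      rw [lint_prod]
      have : ∀ x, ∫⁻ y, (Sub v).indicator (1 : T → ℝ≥0∞) x * ((Sub v)ᶜ).indicator 1 y ∂μ =
          (Sub v).indicator (1 : T → ℝ≥0∞) x * μ (Sub v)ᶜ := by
        intro x
        rw [lintegral_const_mul _ Measurable.of_discrete, lintegral_indicator_one
          MeasurableSet.of_discrete]
      simp only [this]
      rw [lintegral_mul_const _ Measurable.of_discrete, lintegral_indicator_one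
          MeasurableSet.of_discrete]
    rw [h3]
    refine lintegral_mono fun p => ?_
    by_cases h4 : v <:+ p.1 <;> by_cases h5 : v <:+ p.2 <;> simp [Sub, hF, h4, h5]
  have h6 : μ (Sub v) * μ (Sub v)ᶜ ≠ ∞ := ne_top_of_le_ne_top hfin (h2.trans h1)
  have h7 : μ (Sub v) ≠ ∞ := fun h => h6 (by rw [h]; exact ENNReal.top_mul hS.2)
  have h8 : μ (Sub v)ᶜ ≠ ∞ := fun h => h6 (by rw [h]; exact ENNReal.mul_top hS.1)
  rw [← Set.union_compl_self (Sub v)]
  exact ne_top_of_le_ne_top (ENNReal.add_ne_top.mpr ⟨h7, h8⟩) (measure_union_le _ _)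

theorem core (μ : Measure T) (C : NNReal) (hA : ∀ F : Option T → ℝ,
    ∫⁻ p : T × T, ENNReal.ofReal ((F (some p.1) - F (some p.2)) ^ 2) ∂(μ.prod μ) ≤
      C * ∑' v : T, ENNReal.ofReal (grad F v ^ 2)) (a : T → ℝ) (ha : ∀ v, 0 ≤ a v) :
    ∫⁻ p : T × T, ENNReal.ofReal ((∑ v ∈ geo p.1 p.2, a v) ^ 2) ∂(μ.prod μ) ≤
      12 * C * ∑' v : T, ENNReal.ofReal (a v ^ 2) := by
  classical
  by_cases hone : ∀ x y : T, μ {x} ≠ 0 → μ {y} ≠ 0 → x = y
  · rw [lint_diag μ _ (fun x => by simp [geo]) hone]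
    exact zero_le
  push Not at hone
  obtain ⟨x₀, y₀, hx0, hy0, hxy0⟩ := hone
  have hfin := finite_mass μ C hA x₀ y₀ hx0 hy0 hxy0
  have hne : μ Set.univ ≠ 0 := fun h => hx0 (measure_mono_null (Set.subset_univ _) h)
  obtain ⟨c, hc, hcb⟩ := exists_centroid μ hfin hne
  set A : ℝ≥0∞ := ∑' v : T, ENNReal.ofReal (a v ^ 2) with hAdef
  set g : T → ℝ≥0∞ := fun x => ENNReal.ofReal (gf a c x ^ 2) with hg
  have hsub : ∀ b : Bool, μ Set.univ * ∫⁻ x, (Sub (b :: c)).indicator g x ∂μ ≤ C * A := by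
    intro b
    refine piece μ C hA a ha c (Sub (b :: c)) ?_ ?_ (hcb b)
    · intro h
      have := List.IsSuffix.length_le (show b :: c <:+ c from h)
      simp at this
    · intro b' w
      change ((b :: c <:+ b' :: w) ↔ (b :: c <:+ w)) ∨ _
      rw [List.suffix_cons_iff]
      by_cases h : b :: c = b' :: w
      · right; right
        exact (List.cons.inj h).2.symm
      · left
        exact ⟨fun h' => h'.resolve_left h, Or.inr⟩
  have hup : μ Set.univ * ∫⁻ x, ((Sub c)ᶜ).indicator g x ∂μ ≤ C * A := by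
    refine piece μ C hA a ha c (Sub c)ᶜ ?_ ?_ (by rw [compl_compl]; exact hc)
    · intro h; exact h List.suffix_rfl
    · intro b' w
      change ((¬ c <:+ b' :: w) ↔ (¬ c <:+ w)) ∨ _
      rw [List.suffix_cons_iff]
      by_cases h : c = b' :: w
      · right; left; exact h.symm
      · left
        rw [not_iff_not]
        exact ⟨fun h' => h'.resolve_left h, Or.inr⟩
  have hg3 : ∀ x, g x ≤ (Sub (false :: c)).indicator g x + (Sub (true :: c)).indicator g x +
      ((Sub c)ᶜ).indicator g x := by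
    intro x
    by_cases h1 : x ∈ Sub c
    · by_cases h2 : x = c
      · have : g x = 0 := by rw [h2]; simp [hg, gf_self]
        rw [this]; exact zero_le
      · -- `x` lies below a child
        obtain ⟨u, hu⟩ : ∃ u, u ++ c = x := h1
        have hune : u ≠ [] := by rintro rfl; exact h2 (by simpa using hu.symm)
        obtain ⟨u', b, hub⟩ : ∃ u' b, u = u' ++ [b] :=
          ⟨u.dropLast, u.getLast hune, (List.dropLast_append_getLast hune).symm⟩
        have hmem : x ∈ Sub (b :: c) := ⟨u', by rw [← hu, hub]; simp⟩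
        cases b
        · rw [Set.indicator_of_mem hmem]
          exact le_add_right (le_add_right le_rfl)
        · rw [Set.indicator_of_mem (s := Sub (true :: c)) hmem]
          exact le_add_right (le_add_left le_rfl)
    · rw [Set.indicator_of_mem (s := (Sub c)ᶜ) h1]
      exact le_add_left le_rfl
  have hM : μ Set.univ * ∫⁻ x, g x ∂μ ≤ 3 * (C * A) := by
    calc μ Set.univ * ∫⁻ x, g x ∂μ ≤ μ Set.univ * ∫⁻ x, ((Sub (false :: c)).indicator g x +
            (Sub (true :: c)).indicator g x + ((Sub c)ᶜ).indicator g x) ∂μ := by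
          gcongr with x; exact hg3 x
      _ = μ Set.univ * ∫⁻ x, (Sub (false :: c)).indicator g x ∂μ +
          μ Set.univ * ∫⁻ x, (Sub (true :: c)).indicator g x ∂μ +
          μ Set.univ * ∫⁻ x, ((Sub c)ᶜ).indicator g x ∂μ := by
          rw [lintegral_add_left Measurable.of_discrete, lintegral_add_left Measurable.of_discrete,
            mul_add, mul_add]
      _ ≤ C * A + C * A + C * A := add_le_add (add_le_add (hsub false) (hsub true)) hup
      _ = 3 * (C * A) := by ring
  have hpt : ∀ p : T × T, ENNReal.ofReal ((∑ v ∈ geo p.1 p.2, a v) ^ 2) ≤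
      2 * g p.1 + 2 * g p.2 := by
    intro p
    have h1 := gf_triangle a ha c p.1 p.2
    have h0 : 0 ≤ ∑ v ∈ geo p.1 p.2, a v := Finset.sum_nonneg fun v _ => ha v
    have h2 : (∑ v ∈ geo p.1 p.2, a v) ^ 2 ≤ 2 * gf a c p.1 ^ 2 + 2 * gf a c p.2 ^ 2 := by
      calc (∑ v ∈ geo p.1 p.2, a v) ^ 2 ≤ (gf a c p.1 + gf a c p.2) ^ 2 :=
            pow_le_pow_left₀ h0 h1 2
        _ ≤ _ := by nlinarith [sq_nonneg (gf a c p.1 - gf a c p.2)]
    refine (ENNReal.ofReal_le_ofReal h2).trans ?_
    rw [ENNReal.ofReal_add (by positivity) (by positivity), ENNReal.ofReal_mul (by norm_num),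
      ENNReal.ofReal_mul (by norm_num)]
    simp [hg]
  calc ∫⁻ p : T × T, ENNReal.ofReal ((∑ v ∈ geo p.1 p.2, a v) ^ 2) ∂(μ.prod μ)
      ≤ ∫⁻ p : T × T, (2 * g p.1 + 2 * g p.2) ∂(μ.prod μ) := lintegral_mono hpt
    _ = 4 * (μ Set.univ * ∫⁻ x, g x ∂μ) := by
        rw [lint_prod]
        have : ∀ x, ∫⁻ y, (2 * g x + 2 * g y) ∂μ = 2 * g x * μ Set.univ + 2 * ∫⁻ y, g y ∂μ := by
          intro x
          rw [lintegral_add_left Measurable.of_discrete, lintegral_const,
            lintegral_const_mul _ Measurable.of_discrete]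
        simp only [this]
        rw [lintegral_add_left Measurable.of_discrete, lintegral_mul_const _
          Measurable.of_discrete, lintegral_const_mul _ Measurable.of_discrete, lintegral_const]
        ring
    _ ≤ 4 * (3 * (C * A)) := by gcongr
    _ = 12 * C * A := by ring

/-! ### (a') implies (b) -/

section RK

variable {H : Type} [NormedAddCommGroup H] [InnerProductSpace ℝ H] [CompleteSpace H]
  [RKHS ℝ H (T × T) ℝ]

/-- the vector of the edge with lower endpoint `b :: w` -/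
noncomputable def ev (H : Type) [NormedAddCommGroup H] [InnerProductSpace ℝ H] [CompleteSpace H]
    [RKHS ℝ H (T × T) ℝ] (i : Bool × T) : H := RKHS.kerFun H (i.2, i.1 :: i.2) 1

theorem inner_ker (hk : ∀ p q : T × T, RKHS.kernel H p q 1 = |k p q|) (p q : T × T) :
    inner ℝ (RKHS.kerFun H p (1 : ℝ)) (RKHS.kerFun H q (1 : ℝ)) =
      ((geo p.1 p.2 ∩ geo q.1 q.2).card : ℝ) := by
  rw [← abs_k, ← hk p q, RKHS.kerFun_inner, RKHS.kerFun_apply]
  simp

theorem ev_orthonormal (hk : ∀ p q : T × T, RKHS.kernel H p q 1 = |k p q|) :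
    Orthonormal ℝ (ev H) := by
  rw [orthonormal_iff_ite]
  intro i j
  rw [ev, ev, inner_ker hk, geo_edge, geo_edge]
  by_cases h : i = j
  · subst h; simp
  · rw [if_neg h, Finset.singleton_inter_of_notMem]
    · simp
    · rw [Finset.mem_singleton]
      intro h'
      exact h (Prod.ext (List.cons.inj h').1 (List.cons.inj h').2)

/-- the value attached to an edge -/
noncomputable def coef (G : H) (v : T) : ℝ := match v with
  | [] => 0
  | b :: w => inner ℝ (ev H (b, w)) G

theorem eval_eq (hk : ∀ p q : T × T, RKHS.kernel H p q 1 = |k p q|) (G : H) (p : T × T) :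
    G p = ∑ v ∈ geo p.1 p.2, coef G v := by
  have h1 : ∀ q : T × T, ∀ v ∈ geo p.1 p.2, coef (RKHS.kerFun H q (1 : ℝ)) v =
      (({v} ∩ geo q.1 q.2).card : ℝ) := by
    intro q v hv
    match v with
    | [] => exact absurd hv (nil_notMem_geo _ _)
    | b :: w =>
      change inner ℝ (ev H (b, w)) _ = _
      rw [ev, inner_ker hk, geo_edge]
  -- the kernel vector is the sum of the edge vectors
  have h2 : ∀ q : T × T, inner ℝ (RKHS.kerFun H p (1 : ℝ)) (RKHS.kerFun H q (1 : ℝ)) =
      ∑ v ∈ geo p.1 p.2, coef (RKHS.kerFun H q (1 : ℝ)) v := by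
    intro q
    rw [inner_ker hk, Finset.sum_congr rfl (h1 q)]
    have h3 : ∀ v ∈ geo p.1 p.2, (({v} ∩ geo q.1 q.2).card : ℝ) =
        if v ∈ geo q.1 q.2 then 1 else 0 := by
      intro v _
      by_cases h : v ∈ geo q.1 q.2
      · rw [Finset.singleton_inter_of_mem h, if_pos h]; simp
      · rw [Finset.singleton_inter_of_notMem h, if_neg h]; simp
    rw [Finset.sum_congr rfl h3, Finset.sum_ite_mem]
    simp
  -- linearity
  set E : H := ∑ v ∈ geo p.1 p.2, (match v with
    | [] => 0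
    | b :: w => ev H (b, w)) with hE
  have hcoef : ∀ G' : H, inner ℝ E G' = ∑ v ∈ geo p.1 p.2, coef G' v := by
    intro G'
    rw [hE, sum_inner]
    refine Finset.sum_congr rfl fun v _ => ?_
    match v with
    | [] => exact inner_zero_left _
    | b :: w => rfl
  have h4 : RKHS.kerFun H p (1 : ℝ) = E := by
    apply RKHS.ext (𝕜 := ℝ)
    intro q
    have h5 : ∀ G' : H, G' q = inner ℝ G' (RKHS.kerFun H q (1 : ℝ)) := by
      intro G'
      rw [RKHS.inner_kerFun]; simp
    rw [h5, h5, hcoef, h2]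
  have h6 : G p = inner ℝ (RKHS.kerFun H p (1 : ℝ)) G := by
    rw [RKHS.kerFun_inner]; simp
  rw [h6, h4, hcoef]

theorem bessel (hk : ∀ p q : T × T, RKHS.kernel H p q 1 = |k p q|) (G : H) :
    ∑' v : T, ENNReal.ofReal (|coef G v| ^ 2) ≤ ENNReal.ofReal (‖G‖ ^ 2) := by
  have ho := ev_orthonormal hk
  have h1 := ho.tsum_inner_products_le G
  have h2 := ho.inner_products_summable G
  -- reindex
  let e : Bool × T → T := fun i => i.1 :: i.2
  have he : Function.Injective e := fun i j hij =>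
    Prod.ext (List.cons.inj hij).1 (List.cons.inj hij).2
  have h3 : ∑' v : T, ENNReal.ofReal (|coef G v| ^ 2) =
      ∑' i : Bool × T, ENNReal.ofReal (|coef G (e i)| ^ 2) := by
    refine (he.tsum_eq ?_).symm
    intro v hv
    match v with
    | [] => simp [coef] at hv
    | b :: w => exact ⟨(b, w), rfl⟩
  rw [h3]
  have h4 : ∀ i : Bool × T, |coef G (e i)| ^ 2 = ‖inner ℝ (ev H i) G‖ ^ 2 := fun i => rfl
  simp only [h4]
  rw [← ENNReal.ofReal_tsum_of_nonneg (fun i => by positivity) h2]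
  exact ENNReal.ofReal_le_ofReal h1

end RK

theorem a_imp_b (μ : Measure T) (h : CondA μ) : CondB μ := by
  obtain ⟨C, hA⟩ := h
  intro H _ _ _ _ hk
  refine ⟨12 * C, fun G => ?_⟩
  calc ∫⁻ p : T × T, ENNReal.ofReal ((G p) ^ 2) ∂(μ.prod μ)
      ≤ ∫⁻ p : T × T, ENNReal.ofReal ((∑ v ∈ geo p.1 p.2, |coef G v|) ^ 2) ∂(μ.prod μ) := by
        refine lintegral_mono fun p => ENNReal.ofReal_le_ofReal ?_
        rw [← sq_abs, eval_eq hk G p]
        exact pow_le_pow_left₀ (abs_nonneg _) (Finset.abs_sum_le_sum_abs _ _) 2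
    _ ≤ 12 * C * ∑' v : T, ENNReal.ofReal (|coef G v| ^ 2) :=
        core μ C hA (fun v => |coef G v|) (fun v => abs_nonneg _)
    _ ≤ 12 * C * ENNReal.ofReal (‖G‖ ^ 2) := by gcongr; exact bessel hk G
    _ = _ := by push_cast; rfl

/-! ### (b) implies (a'): the model space `ℓ²` -/

/-- The model space. -/
abbrev L2 : Type := lp (fun _ : Bool × T => ℝ) 2

/-- evaluation of a square summable family of edge weights along a geodesic -/
noncomputable def wt (v : T) : L2 := match v with
  | [] => 0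
  | b :: w => lp.single 2 (b, w) (1 : ℝ)

/-- the kernel vectors of the model -/
noncomputable def kv (p : T × T) : L2 := ∑ v ∈ geo p.1 p.2, wt v

theorem wt_inner (v w : T) (hv : v ≠ []) :
    inner ℝ (wt v) (wt w) = if v = w then (1 : ℝ) else 0 := by
  match v, w with
  | [], _ => exact absurd rfl hv
  | b :: u, [] =>
    simp [wt]
  | b :: u, b' :: u' =>
    change inner ℝ (lp.single (E := fun _ : Bool × T => ℝ) 2 (b, u) (1 : ℝ))
      (lp.single (E := fun _ : Bool × T => ℝ) 2 (b', u') (1 : ℝ)) = _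
    rw [lp.inner_single_left]
    by_cases h : b :: u = b' :: u'
    · obtain ⟨rfl, rfl⟩ := List.cons.inj h
      simp
    · rw [if_neg h, lp.single_apply_ne]
      · simp
      · intro h'
        apply h
        rw [show b = b' from (Prod.ext_iff.mp h').1, show u = u' from (Prod.ext_iff.mp h').2]

theorem kv_inner (p q : T × T) : inner ℝ (kv p) (kv q) = |k p q| := by
  rw [abs_k, kv, kv, sum_inner]
  have : ∀ v ∈ geo p.1 p.2, inner ℝ (wt v) (∑ w ∈ geo q.1 q.2, wt w) =
      if v ∈ geo q.1 q.2 then (1 : ℝ) else 0 := by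
    intro v hv
    have hv0 : v ≠ [] := fun h => nil_notMem_geo _ _ (h ▸ hv)
    rw [inner_sum, Finset.sum_congr rfl fun w _ => wt_inner v w hv0, Finset.sum_ite_eq]
  rw [Finset.sum_congr rfl this, Finset.sum_ite_mem]
  simp

theorem kv_edge (i : Bool × T) (f : L2) : inner ℝ (kv (i.2, i.1 :: i.2)) f = f i := by
  have : kv (i.2, i.1 :: i.2) = lp.single 2 i (1 : ℝ) := by
    rw [kv, geo_edge, Finset.sum_singleton]
    rfl
  rw [this, lp.inner_single_left]
  simp

/-- The model as a reproducing kernel Hilbert space. -/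
@[reducible] noncomputable def model : RKHS ℝ L2 (T × T) ℝ where
  coeCLM := ContinuousLinearMap.pi fun p => innerSL ℝ (kv p)
  coeCLM_injective := by
    intro f g hfg
    apply lp.ext
    funext i
    have := congrFun hfg (i.2, i.1 :: i.2)
    have h1 : inner ℝ (kv (i.2, i.1 :: i.2)) f = inner ℝ (kv (i.2, i.1 :: i.2)) g := this
    rwa [kv_edge, kv_edge] at h1

theorem telescoping (F : Option T → ℝ) (x : T) :
    F (some x) = F none + ∑ v ∈ anc x, grad F v := by
  induction x with
  | nil => rw [anc_nil, Finset.sum_singleton]; simp [grad, par]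
  | cons b w ih =>
    rw [anc_cons, Finset.sum_insert (not_mem_anc b w)]
    have : grad F (b :: w) = F (some (b :: w)) - F (some w) := rfl
    rw [this, ih]; ring

theorem diff_le (F : Option T → ℝ) (x y : T) :
    |F (some x) - F (some y)| ≤ ∑ v ∈ geo x y, |grad F v| := by
  rw [telescoping F x, telescoping F y]
  have h2 := Finset.sum_inter_add_sum_sdiff (anc x) (anc y) (grad F)
  have h3 := Finset.sum_inter_add_sum_sdiff (anc y) (anc x) (grad F)
  rw [Finset.inter_comm] at h3
  have h1 : ∑ v ∈ geo x y, |grad F v| =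
      ∑ v ∈ anc x \ anc y, |grad F v| + ∑ v ∈ anc y \ anc x, |grad F v| := by
    rw [geo, symmDiff_def, Finset.sup_eq_union, Finset.sum_union disjoint_sdiff_sdiff]
  rw [h1, ← h2, ← h3]
  calc |F none + (∑ v ∈ anc x ∩ anc y, grad F v + ∑ v ∈ anc x \ anc y, grad F v) -
        (F none + (∑ v ∈ anc x ∩ anc y, grad F v + ∑ v ∈ anc y \ anc x, grad F v))|
      = |∑ v ∈ anc x \ anc y, grad F v - ∑ v ∈ anc y \ anc x, grad F v| := by congr 1; ring
    _ ≤ |∑ v ∈ anc x \ anc y, grad F v| + |∑ v ∈ anc y \ anc x, grad F v| := abs_sub _ _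
    _ ≤ _ := add_le_add (Finset.abs_sum_le_sum_abs _ _) (Finset.abs_sum_le_sum_abs _ _)

theorem b_imp_a (μ : Measure T) (h : CondB μ) : CondA μ := by
  let _inst := model
  have hker : ∀ p : T × T, RKHS.kerFun L2 p (1 : ℝ) = kv p := by
    intro p
    refine ext_inner_right ℝ fun f => ?_
    rw [RKHS.kerFun_inner]
    change inner ℝ (1 : ℝ) (inner ℝ (kv p) f) = _
    simp
  obtain ⟨C, hC⟩ := h L2 (fun p q => by
    rw [← RKHS.kerFun_apply, hker]
    exact kv_inner p q)
  refine ⟨C + 1, fun F => ?_⟩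
  by_cases htop : ∑' v : T, ENNReal.ofReal (grad F v ^ 2) = ∞
  · rw [htop, ENNReal.mul_top]
    · exact le_top
    · simp
  have hsum : Summable fun v : T => grad F v ^ 2 := by
    have := ENNReal.summable_toReal htop
    refine this.congr fun v => ?_
    rw [ENNReal.toReal_ofReal (sq_nonneg _)]
  let e : Bool × T → T := fun i => i.1 :: i.2
  have he : Function.Injective e := fun i j hij =>
    Prod.ext (List.cons.inj hij).1 (List.cons.inj hij).2
  have hsum2 : Summable fun i : Bool × T => grad F (e i) ^ 2 := hsum.comp_injective he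
  have hmem : Memℓp (fun i : Bool × T => |grad F (e i)|) 2 := by
    apply memℓp_gen
    refine hsum2.congr fun i => ?_
    simp
  set G : L2 := ⟨fun i => |grad F (e i)|, hmem⟩ with hG
  have hGi : ∀ i, G i = |grad F (e i)| := fun i => rfl
  have hGp : ∀ p : T × T, (show ℝ from inner ℝ (kv p) G) = ∑ v ∈ geo p.1 p.2, |grad F v| := by
    intro p
    rw [kv, sum_inner]
    refine Finset.sum_congr rfl fun v hv => ?_
    match v with
    | [] => exact absurd hv (nil_notMem_geo _ _)
    | b :: w =>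
      change inner ℝ (lp.single 2 (b, w) (1 : ℝ)) G = _
      rw [lp.inner_single_left, hGi]
      simp [e]
  have hnorm : ENNReal.ofReal (‖G‖ ^ 2) ≤ ∑' v : T, ENNReal.ofReal (grad F v ^ 2) := by
    rw [← real_inner_self_eq_norm_sq, lp.inner_eq_tsum]
    have : ∀ i, inner ℝ (G i) (G i) = grad F (e i) ^ 2 := by
      intro i
      rw [hGi, real_inner_self_eq_norm_sq, Real.norm_eq_abs, abs_abs, sq_abs]
    simp only [this]
    rw [ENNReal.ofReal_tsum_of_nonneg (fun i => sq_nonneg _) hsum2]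
    exact ENNReal.tsum_comp_le_tsum_of_injective he _
  calc ∫⁻ p : T × T, ENNReal.ofReal ((F (some p.1) - F (some p.2)) ^ 2) ∂(μ.prod μ)
      ≤ ∫⁻ p : T × T, ENNReal.ofReal ((inner ℝ (kv p) G) ^ 2) ∂(μ.prod μ) := by
        refine lintegral_mono fun p => ENNReal.ofReal_le_ofReal ?_
        have h1 := hGp p
        change inner ℝ (kv p) G = _ at h1
        rw [h1, ← sq_abs]
        exact pow_le_pow_left₀ (abs_nonneg _) (diff_le F p.1 p.2) 2
    _ ≤ C * ENNReal.ofReal (‖G‖ ^ 2) := hC G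
    _ ≤ (C + 1 : NNReal) * ∑' v : T, ENNReal.ofReal (grad F v ^ 2) := by
        gcongr
        simp

/-- **Full answer to Q1 (affirmative).** -/
theorem result (μ : Measure T) : CondA μ ↔ CondB μ := ⟨a_imp_b μ, b_imp_a μ⟩

end Pool.Agent.Results.MP_efe325_an.AbsKernel
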